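import Pool.Agent.H158_BL.Thm2

/-!
# A model of ZF + DC with a Banach limit and a total extension of Lebesgue measure

All definitions used in the statement are in `Pool.Agent.H158_BL.Pub` and
`Pool.Agent.Y518.CC.Pub`, which import only Mathlib.
-/

set_option autoImplicit false

namespace Pool.Agent.Results.MP_701998_lc.LimitAndTotalMeasure

open Pool.Agent.Y518.CC.Pub (IsZF DC code)
open Pool.Agent.H158_BL.Pub (IsBanachLimit IsMeasure IsMedial)

/-- For every `z : ℕ → ℕ` there is a countable transitive model `M` of ZF + DC with `z ∈ M` in
which there are a Banach limit `L` and a countably additive probability measure `m` that is defined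
for all sets of real numbers, extends Lebesgue measure on the unit interval, is invariant under
translations and reflections modulo one, satisfies the theorem of Fubini, for which every set of
real numbers can be approximated by finite unions of rational intervals, and for which `L` is a
medial limit. -/
theorem result (z : ℕ → ℕ) : ∃ M : Set ZFSet.{0}, M.Countable ∧ IsZF M ∧ DC M ∧ code z ∈ M ∧
    ∃ L ∈ M, ∃ m ∈ M, ∃ (Λ : (ℕ → ℝ) → ℝ) (μ : Set ℝ → ℝ),
      IsBanachLimit M L Λ ∧ IsMeasure M m μ ∧ IsMedial M Λ μ :=
  Pool.Agent.H158_BL.model z

end Pool.Agent.Results.MP_701998_lc.LimitAndTotalMeasure
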